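import Pool.Agent.Helper69.RF.Bas

set_option autoImplicit false

namespace Pool.Agent.Helper24.RF

open Pool.Agent.Helper69.RF Helper62.Weber Polynomial

private lemma pow3 (m : ℕ) : ∃ r : ℤ, Odd r ∧ (3 : ℤ) ^ (2 ^ (m + 1)) = 1 + 2 ^ (m + 3) * r := by
  induction m with
  | zero => exact ⟨1, odd_one, by norm_num⟩
  | succ m ih =>
    obtain ⟨r, hr, h⟩ := ih
    refine ⟨r + 2 ^ (m + 2) * r ^ 2, ?_, ?_⟩
    · apply Odd.add_even hr
      rw [pow_succ]
      exact ((even_two.mul_left _).mul_right _)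
    · have e : 2 ^ (m + 1 + 1) = 2 ^ (m + 1) * 2 := pow_succ _ _
      rw [e, pow_mul, h]
      ring

private lemma odd_pow3 (m : ℕ) (j : ℤ) (hj : Odd j) :
    ∃ k : ℕ, (2 : ℤ) ^ (m + 3) ∣ j - 3 ^ k ∨ (2 : ℤ) ^ (m + 3) ∣ j + 3 ^ k := by
  induction m with
  | zero =>
    obtain ⟨q, rfl⟩ := hj
    have h4 : q % 4 = 0 ∨ q % 4 = 1 ∨ q % 4 = 2 ∨ q % 4 = 3 := by omega
    rcases h4 with h | h | h | h
    · exact ⟨0, Or.inl (by norm_num; omega)⟩
    · exact ⟨1, Or.inl (by norm_num; omega)⟩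
    · exact ⟨1, Or.inr (by norm_num; omega)⟩
    · exact ⟨0, Or.inr (by norm_num; omega)⟩
  | succ m ih =>
    obtain ⟨k, hk⟩ := ih
    obtain ⟨r, hr, h3⟩ := pow3 m
    have h3o : Odd ((3 : ℤ) ^ k) := Odd.pow (by decide)
    rcases hk with ⟨q, hq⟩ | ⟨q, hq⟩
    · rcases Int.even_or_odd q with he | ho
      · obtain ⟨s, hs⟩ := he
        exact ⟨k, Or.inl ⟨s, by rw [hq, hs]; ring⟩⟩
      · have h1 : Even (q - 3 ^ k * r) := ho.sub_odd (h3o.mul hr)
        obtain ⟨s, hs⟩ := h1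
        refine ⟨k + 2 ^ (m + 1), Or.inl ⟨s, ?_⟩⟩
        rw [pow_add, h3]
        have : j = 3 ^ k + 2 ^ (m + 3) * q := by linarith
        rw [this]
        have e : q = 3 ^ k * r + (s + s) := by linarith
        rw [e]
        ring
    · rcases Int.even_or_odd q with he | ho
      · obtain ⟨s, hs⟩ := he
        exact ⟨k, Or.inr ⟨s, by rw [hq, hs]; ring⟩⟩
      · have h1 : Even (q + 3 ^ k * r) := ho.add_odd (h3o.mul hr)
        obtain ⟨s, hs⟩ := h1
        refine ⟨k + 2 ^ (m + 1), Or.inr ⟨s, ?_⟩⟩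
        rw [pow_add, h3]
        have : j = -3 ^ k + 2 ^ (m + 3) * q := by linarith
        rw [this]
        have e : q = -(3 ^ k * r) + (s + s) := by linarith
        rw [e]
        ring

private noncomputable def W (y : ℂ) : ℂ := (1 - y) / (1 + y)

private lemma z0 (n : ℕ) : zC n ≠ 0 := (zC_prim n).ne_zero (by positivity)

private lemma ne_one {n j : ℕ} (hj : Odd j) : zC n ^ j ≠ 1 := by
  intro h
  have h1 := ((zC_prim n).pow_eq_one_iff_dvd j).1 h
  have h2 : 2 ∣ j := dvd_trans ⟨2 ^ (n + 1), by ring⟩ h1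
  rcases hj with ⟨k, rfl⟩
  omega

private lemma ne_neg_one {n j : ℕ} (hj : Odd j) : zC n ^ j ≠ -1 := by
  intro h
  have h0 : zC n ^ (j * 2) = 1 := by rw [pow_mul, h]; norm_num
  have h1 := ((zC_prim n).pow_eq_one_iff_dvd _).1 h0
  have h2 : 2 * 2 ∣ j * 2 := dvd_trans ⟨2 ^ n, by ring⟩ h1
  have h3 : 2 ∣ j := Nat.dvd_of_mul_dvd_mul_right (by norm_num) h2
  rcases hj with ⟨k, rfl⟩
  omega

private lemma W_step {n j : ℕ} (hj : Odd j) :
    ∃ u ∈ cycUnits n, W (zC n ^ (3 * j)) = ((u : ℝ) : ℂ) * W (zC n ^ j) := by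
  have hc : ((cR n j : ℝ) : ℂ) = zC n ^ j + (zC n ^ j)⁻¹ := cR_C n j
  have e3 : zC n ^ (3 * j) = (zC n ^ j) ^ 3 := by rw [mul_comm, pow_mul]
  have o3 : Odd (3 * j) := Odd.mul (by decide) hj
  have y0 : zC n ^ j ≠ 0 := pow_ne_zero _ (z0 n)
  have y1 : zC n ^ j ≠ 1 := ne_one hj
  have y2 : zC n ^ j ≠ -1 := ne_neg_one hj
  have y3 : (zC n ^ j) ^ 3 ≠ 1 := by rw [← e3]; exact ne_one o3
  have y4 : (zC n ^ j) ^ 3 ≠ -1 := by rw [← e3]; exact ne_neg_one o3
  rw [e3]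
  generalize zC n ^ j = y at *
  have q1 : y ^ 2 - y + 1 ≠ 0 := by
    intro h
    apply y4
    have : (y + 1) * (y ^ 2 - y + 1) = 0 := by rw [h, mul_zero]
    linear_combination this
  have q2 : y ^ 2 + y + 1 ≠ 0 := by
    intro h
    apply y3
    have : (y - 1) * (y ^ 2 + y + 1) = 0 := by rw [h, mul_zero]
    linear_combination this
  have c1 : cR n j - 1 ≠ 0 := by
    intro h
    apply q1
    have h1 : ((cR n j : ℝ) : ℂ) = 1 := by
      have : cR n j = 1 := by linarith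
      rw [this]; norm_num
    rw [hc] at h1
    field_simp at h1
    linear_combination h1
  have c2 : cR n j + 1 ≠ 0 := by
    intro h
    apply q2
    have h1 : ((cR n j : ℝ) : ℂ) = -1 := by
      have : cR n j = -1 := by linarith
      rw [this]; norm_num
    rw [hc] at h1
    field_simp at h1
    linear_combination h1
  refine ⟨Units.mk0 ((cR n j + 1) / (cR n j - 1)) (div_ne_zero c2 c1), ?_, ?_⟩
  · apply Subgroup.subset_closure
    right
    exact ⟨j, hj, rfl⟩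
  · rw [Units.val_mk0]
    push_cast
    rw [hc, W, W]
    have d1 : 1 + y ≠ 0 := by
      intro h; apply y2; linear_combination h
    have d2 : 1 + y ^ 3 ≠ 0 := by
      intro h; apply y4; linear_combination h
    have d3 : y + y⁻¹ - 1 = (y ^ 2 - y + 1) / y := by field_simp; ring
    have d4 : y + y⁻¹ + 1 = (y ^ 2 + y + 1) / y := by field_simp; ring
    rw [d3, d4]
    have d5 : (y ^ 2 + y + 1) / y / ((y ^ 2 - y + 1) / y) = (y ^ 2 + y + 1) / (y ^ 2 - y + 1) := by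
      field_simp
    rw [d5, div_mul_div_comm, div_eq_div_iff d2 (mul_ne_zero q1 d1)]
    ring

private lemma W_chain (n k : ℕ) :
    ∃ u ∈ cycUnits n, W (zC n ^ 3 ^ k) = ((u : ℝ) : ℂ) * W (zC n) := by
  induction k with
  | zero => exact ⟨1, Subgroup.one_mem _, by simp⟩
  | succ k ih =>
    obtain ⟨u, hu, h⟩ := ih
    obtain ⟨v, hv, h'⟩ := W_step (n := n) (j := 3 ^ k) (Odd.pow (by decide))
    refine ⟨v * u, Subgroup.mul_mem _ hv hu, ?_⟩
    rw [pow_succ 3 k, mul_comm (3 ^ k) 3, h', h]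
    push_cast
    ring

private lemma neg_mem (n : ℕ) : (-1 : ℝˣ) ∈ cycUnits n := Subgroup.subset_closure (Or.inl rfl)

private lemma W_inv {y : ℂ} (h0 : y ≠ 0) (h1 : y ≠ -1) : W y⁻¹ = -W y := by
  have d1 : 1 + y ≠ 0 := by
    intro h; apply h1; linear_combination h
  have d2 : 1 + y⁻¹ ≠ 0 := by
    intro h
    field_simp at h
    apply d1
    linear_combination h
  rw [W, W]
  have e1 : 1 - y⁻¹ = (y - 1) / y := by field_simp
  have e2 : 1 + y⁻¹ = (1 + y) / y := by field_simp; ring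
  rw [e1, e2]
  field_simp
  ring

private lemma W_odd {n j : ℕ} (hn : 1 ≤ n) (hj : Odd j) :
    ∃ u ∈ cycUnits n, W (zC n ^ j) = ((u : ℝ) : ℂ) * W (zC n) := by
  obtain ⟨k, hk⟩ := odd_pow3 (n - 1) (j : ℤ) (by exact_mod_cast hj)
  have e : n - 1 + 3 = n + 2 := by omega
  rw [e] at hk
  have h3 : Odd (3 ^ k) := Odd.pow (by decide)
  obtain ⟨u, hu, h⟩ := W_chain n k
  rcases hk with hk | hk
  · refine ⟨u, hu, ?_⟩
    rw [← h]
    congr 1
    have h1 := ((zC_prim n).zpow_eq_one_iff_dvd ((j : ℤ) - 3 ^ k)).2 (by exact_mod_cast hk)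
    rw [zpow_sub₀ (z0 n), div_eq_one_iff_eq (zpow_ne_zero _ (z0 n))] at h1
    have e2 : zC n ^ ((3 : ℤ) ^ k) = zC n ^ (3 ^ k : ℕ) := by
      rw [← zpow_natCast]; push_cast; rfl
    rw [e2, zpow_natCast] at h1
    exact h1
  · refine ⟨-1 * u, Subgroup.mul_mem _ (neg_mem n) hu, ?_⟩
    have h1 := ((zC_prim n).zpow_eq_one_iff_dvd ((j : ℤ) + 3 ^ k)).2 (by exact_mod_cast hk)
    rw [zpow_add₀ (z0 n)] at h1
    have e2 : zC n ^ ((3 : ℤ) ^ k) = zC n ^ (3 ^ k : ℕ) := by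
      rw [← zpow_natCast]; push_cast; rfl
    rw [e2, zpow_natCast] at h1
    have h2 : zC n ^ j = (zC n ^ 3 ^ k)⁻¹ := eq_inv_of_mul_eq_one_left h1
    rw [h2, W_inv (pow_ne_zero _ (z0 n)) (ne_neg_one h3), h]
    push_cast
    ring

private lemma W1_ne (n : ℕ) : W (zC n) ≠ 0 := by
  have h1 := ne_one (n := n) (j := 1) odd_one
  have h2 := ne_neg_one (n := n) (j := 1) odd_one
  rw [pow_one] at h1 h2
  rw [W]
  apply div_ne_zero
  · intro h; apply h1; linear_combination -h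
  · intro h; apply h2; linear_combination h

private lemma W1_sq {n : ℕ} (hn : 1 ≤ n) :
    ∃ u ∈ cycUnits n, W (zC n) ^ 2 = ((u : ℝ) : ℂ) := by
  obtain ⟨u, hu, h⟩ := W_odd (n := n) (j := 1 + 2 ^ (n + 1)) hn (odd_half n)
  rw [pow_add, pow_one, zC_half, mul_neg_one] at h
  have h1 : W (-zC n) = (W (zC n))⁻¹ := by
    rw [W, W, inv_div, sub_neg_eq_add, ← sub_eq_add_neg]
  rw [h1] at h
  refine ⟨u⁻¹, Subgroup.inv_mem _ hu, ?_⟩
  have h0 := W1_ne n
  have hu0 : ((u : ℝ) : ℂ) ≠ 0 := by exact_mod_cast u.ne_zero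
  rw [Units.val_inv_eq_inv_val, Complex.ofReal_inv]
  apply eq_inv_of_mul_eq_one_left
  have : (W (zC n))⁻¹ * W (zC n) = ((u : ℝ) : ℂ) * W (zC n) * W (zC n) := by rw [← h]
  rw [inv_mul_cancel₀ h0] at this
  rw [this]
  ring

private def Q (n : ℕ) (y : ℂ) : Prop :=
  ∃ u ∈ cycUnits n, ∃ k : ℤ, y = ((u : ℝ) : ℂ) * W (zC n) ^ k

private lemma Q_one (n : ℕ) : Q n 1 := ⟨1, Subgroup.one_mem _, 0, by simp⟩

private lemma Q_mul {n : ℕ} {y y' : ℂ} (h : Q n y) (h' : Q n y') : Q n (y * y') := by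
  obtain ⟨u, hu, k, rfl⟩ := h
  obtain ⟨u', hu', k', rfl⟩ := h'
  refine ⟨u * u', Subgroup.mul_mem _ hu hu', k + k', ?_⟩
  rw [zpow_add₀ (W1_ne n)]
  push_cast
  ring

private lemma Q_inv {n : ℕ} {y : ℂ} (h : Q n y) : Q n y⁻¹ := by
  obtain ⟨u, hu, k, rfl⟩ := h
  refine ⟨u⁻¹, Subgroup.inv_mem _ hu, -k, ?_⟩
  rw [mul_inv, zpow_neg, Units.val_inv_eq_inv_val, Complex.ofReal_inv]

private lemma neg_pow_ne {n m : ℕ} (h0 : 0 < m) (h1 : m < 2 ^ (n + 2)) : (-zC n) ^ m ≠ 1 := by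
  intro h
  rcases Nat.even_or_odd m with he | ho
  · rw [he.neg_pow] at h
    have := Nat.le_of_dvd h0 (((zC_prim n).pow_eq_one_iff_dvd m).1 h)
    omega
  · rw [ho.neg_pow] at h
    apply ne_neg_one (n := n) ho
    linear_combination -h

private lemma pow_ne {n m : ℕ} (h0 : 0 < m) (h1 : m < 2 ^ (n + 2)) : zC n ^ m ≠ 1 := by
  intro h
  have := Nat.le_of_dvd h0 (((zC_prim n).pow_eq_one_iff_dvd m).1 h)
  omega

private lemma prodeq (m : ℕ) (h0 : 0 < m) (y : ℂ) :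
    aeval y (cyclotomic m ℤ) * ∏ d ∈ m.properDivisors, aeval y (cyclotomic d ℤ) = y ^ m - 1 := by
  have h := prod_cyclotomic_eq_X_pow_sub_one h0 ℤ
  rw [← Nat.insert_self_properDivisors h0.ne', Finset.prod_insert (by simp)] at h
  have h1 := congrArg (aeval y) h
  rw [map_mul, map_prod, map_sub, map_pow, aeval_X, map_one] at h1
  exact h1

private lemma cyc_ne {m : ℕ} (h0 : 0 < m) {y : ℂ} (h : y ^ m ≠ 1) : aeval y (cyclotomic m ℤ) ≠ 0 := by
  intro h1
  have h2 := prodeq m h0 y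
  rw [h1, zero_mul] at h2
  apply h
  linear_combination -h2

private lemma Q_ratio {n : ℕ} (hn : 1 ≤ n) (m : ℕ) (h0 : 0 < m) (h1 : m < 2 ^ (n + 2)) :
    Q n (aeval (zC n) (cyclotomic m ℤ) / aeval (-zC n) (cyclotomic m ℤ)) := by
  induction m using Nat.strong_induction_on with
  | _ m ih =>
  have hd : ∀ d ∈ m.properDivisors, 0 < d ∧ d < 2 ^ (n + 2) := by
    intro d hd
    rw [Nat.mem_properDivisors] at hd
    exact ⟨Nat.pos_of_dvd_of_pos hd.1 h0, lt_trans hd.2 h1⟩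
  have hP : ∀ s : Finset ℕ, s ⊆ m.properDivisors →
      Q n (∏ d ∈ s, (aeval (zC n) (cyclotomic d ℤ) / aeval (-zC n) (cyclotomic d ℤ))) := by
    intro s
    induction s using Finset.induction_on with
    | empty => intro _; rw [Finset.prod_empty]; exact Q_one n
    | insert d s hds ihs =>
      intro hs
      rw [Finset.prod_insert hds]
      have hdm : d ∈ m.properDivisors := hs (Finset.mem_insert_self _ _)
      refine Q_mul (ih d (Nat.mem_properDivisors.1 hdm).2 (hd d hdm).1 (hd d hdm).2) (ihs ?_)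
      exact fun x hx => hs (Finset.mem_insert_of_mem hx)
  have hQ := hP _ (Finset.Subset.refl _)
  have n1 : aeval (zC n) (cyclotomic m ℤ) ≠ 0 := cyc_ne h0 (pow_ne h0 h1)
  have n2 : aeval (-zC n) (cyclotomic m ℤ) ≠ 0 := cyc_ne h0 (neg_pow_ne h0 h1)
  have n3 : ∏ d ∈ m.properDivisors, aeval (zC n) (cyclotomic d ℤ) ≠ 0 :=
    Finset.prod_ne_zero_iff.2 fun d hdm => cyc_ne (hd d hdm).1 (pow_ne (hd d hdm).1 (hd d hdm).2)
  have n4 : ∏ d ∈ m.properDivisors, aeval (-zC n) (cyclotomic d ℤ) ≠ 0 :=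
    Finset.prod_ne_zero_iff.2 fun d hdm => cyc_ne (hd d hdm).1 (neg_pow_ne (hd d hdm).1 (hd d hdm).2)
  have p1 := prodeq m h0 (zC n)
  have p2 := prodeq m h0 (-zC n)
  have hM : Q n ((zC n ^ m - 1) / ((-zC n) ^ m - 1)) := by
    rcases Nat.even_or_odd m with he | ho
    · rw [he.neg_pow, div_self]
      · exact Q_one n
      · exact sub_ne_zero.2 (pow_ne h0 h1)
    · rw [ho.neg_pow]
      obtain ⟨u, hu, h⟩ := W_odd hn ho
      refine ⟨u, hu, 1, ?_⟩
      rw [zpow_one, ← h, W]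
      have e1 : zC n ^ m - 1 = -(1 - zC n ^ m) := by ring
      have e2 : -zC n ^ m - 1 = -(1 + zC n ^ m) := by ring
      rw [e1, e2, neg_div_neg_eq]
  have key : aeval (zC n) (cyclotomic m ℤ) / aeval (-zC n) (cyclotomic m ℤ) =
      (zC n ^ m - 1) / ((-zC n) ^ m - 1) *
        (∏ d ∈ m.properDivisors, (aeval (zC n) (cyclotomic d ℤ) / aeval (-zC n) (cyclotomic d ℤ)))⁻¹ := by
    rw [Finset.prod_div_distrib, ← p1, ← p2]
    field_simp
  rw [key]
  exact Q_mul hM (Q_inv hQ)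

private lemma conjW (n : ℕ) : (starRingEnd ℂ) (W (zC n)) = -W (zC n) := by
  have h1 : ‖zC n‖ = 1 := (zC_prim n).norm'_eq_one (by positivity)
  have h2 : (starRingEnd ℂ) (zC n) = (zC n)⁻¹ := (Complex.inv_eq_conj h1).symm
  have h3 := ne_neg_one (n := n) (j := 1) odd_one
  rw [pow_one] at h3
  rw [← W_inv (z0 n) h3, W, W, map_div₀, map_sub, map_add, map_one, h2]

theorem cHGR : HGR := by
  intro n F x e hn hF he hx
  have hN : ∀ G : Multiset ℕ, (∀ m ∈ G, 0 < m ∧ m < 2 ^ (n + 2)) →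
      (G.map (fun m => aeval (-zC n) (cyclotomic m ℤ))).prod ≠ 0 ∧
      Q n ((G.map (fun m => aeval (zC n) (cyclotomic m ℤ))).prod /
        (G.map (fun m => aeval (-zC n) (cyclotomic m ℤ))).prod) := by
    intro G
    induction G using Multiset.induction_on with
    | empty =>
      intro _
      simp only [Multiset.map_zero, Multiset.prod_zero, div_one]
      exact ⟨one_ne_zero, Q_one n⟩
    | cons a G ih =>
      intro hG
      obtain ⟨i1, i2⟩ := ih fun m hm => hG m (Multiset.mem_cons_of_mem hm)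
      have ha := hG a (Multiset.mem_cons_self a G)
      simp only [Multiset.map_cons, Multiset.prod_cons]
      refine ⟨mul_ne_zero (cyc_ne ha.1 (neg_pow_ne ha.1 ha.2)) i1, ?_⟩
      rw [← div_mul_div_comm]
      exact Q_mul (Q_ratio hn a ha.1 ha.2) i2
  obtain ⟨h1, h2⟩ := hN F hF
  have h3 : (x : ℂ) = (e : ℂ) * ((F.map (fun m => aeval (zC n) (cyclotomic m ℤ))).prod /
      (F.map (fun m => aeval (-zC n) (cyclotomic m ℤ))).prod) := by
    rw [← mul_div_assoc, ← hx]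
    field_simp
  have h4 : Q n (x : ℂ) := by
    rw [h3]
    apply Q_mul _ h2
    rcases he with rfl | rfl
    · simpa using Q_one n
    · exact ⟨-1, neg_mem n, 0, by simp⟩
  obtain ⟨u, hu, k, hk⟩ := h4
  obtain ⟨c, hc, hc2⟩ := W1_sq hn
  have hu0 : ((u : ℝ) : ℂ) ≠ 0 := by exact_mod_cast u.ne_zero
  rcases Int.even_or_odd' k with ⟨m, rfl | rfl⟩
  · refine ⟨u * c ^ m, Subgroup.mul_mem _ hu (Subgroup.zpow_mem _ hc m), ?_⟩
    rw [zpow_mul] at hk
    have e2 : W (zC n) ^ (2 : ℤ) = ((c : ℝ) : ℂ) := by rw [← hc2]; norm_cast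
    rw [e2] at hk
    have : (((u * c ^ m : ℝˣ) : ℝ) : ℂ) = (x : ℂ) := by
      rw [hk, Units.val_mul, Units.val_zpow_eq_zpow_val]
      push_cast
      ring
    exact_mod_cast this
  · exfalso
    rw [zpow_add₀ (W1_ne n), zpow_mul, zpow_one] at hk
    have e2 : W (zC n) ^ (2 : ℤ) = ((c : ℝ) : ℂ) := by rw [← hc2]; norm_cast
    rw [e2] at hk
    have h5 := congrArg (starRingEnd ℂ) hk
    rw [map_mul, map_mul, map_zpow₀, conjW, Complex.conj_ofReal, Complex.conj_ofReal,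
      Complex.conj_ofReal] at h5
    have h6 : (x : ℂ) = 0 := by
      have : (x : ℂ) + x = 0 := by
        nth_rewrite 1 [hk]
        rw [h5]
        ring
      linear_combination this / 2
    rw [hk] at h6
    have hc0 : ((c : ℝ) : ℂ) ≠ 0 := by exact_mod_cast c.ne_zero
    exact mul_ne_zero hu0 (mul_ne_zero (zpow_ne_zero _ hc0) (W1_ne n)) h6

end Pool.Agent.Helper24.RF
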